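import Pool.Agent.Helper94.LG.Sheet
open MeasureTheory Metric Set Filter Topology
open scoped ENNReal NNReal

/-! Row ED of the sheet `Pool.Agent.Helper94.LG.Sheet`: the edge inequality. -/

namespace H11ST
namespace LG
namespace ED

lemma key (x y : ℝ) (hx : 0 ≤ x) (hy : 0 ≤ y) :
    (Th x - Th y) ^ 2 ≤ (x + y) / 2 * ((x - y) * (FF x - FF y)) := by
  unfold Th FF
  split_ifs with h1 h2 h2
  · nlinarith [sq_nonneg (x - y)]
  · push Not at h2
    have h3 : 0 ≤ 1 / 4 - x ^ 2 := by nlinarith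
    have h4 : 0 ≤ y ^ 2 - 1 / 4 := by nlinarith
    nlinarith [mul_nonneg h3 h4]
  · push Not at h1
    have h3 : 0 ≤ 1 / 4 - y ^ 2 := by nlinarith
    have h4 : 0 ≤ x ^ 2 - 1 / 4 := by nlinarith
    nlinarith [mul_nonneg h3 h4]
  · nlinarith [sq_nonneg (x - y)]

lemma Qnn (x y : ℝ) (hx : 0 ≤ x) (hy : 0 ≤ y) : 0 ≤ (x - y) * (FF x - FF y) := by
  unfold FF
  split_ifs with h1 h2 h2
  · have : (x - y) * (2 * x ^ 2 - 2 * y ^ 2) = 2 * (x - y) ^ 2 * (x + y) := by ring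
    rw [this]; positivity
  · push Not at h2
    have h3 : 0 ≤ y - x := by linarith
    have h4 : 0 ≤ y ^ 2 / 2 + 3 / 8 - 2 * x ^ 2 := by nlinarith
    nlinarith [mul_nonneg h3 h4]
  · push Not at h1
    have h3 : 0 ≤ x - y := by linarith
    have h4 : 0 ≤ x ^ 2 / 2 + 3 / 8 - 2 * y ^ 2 := by nlinarith
    nlinarith [mul_nonneg h3 h4]
  · have : (x - y) * (x ^ 2 / 2 + 3 / 8 - (y ^ 2 / 2 + 3 / 8)) = (x - y) ^ 2 * (x + y) / 2 := by
      ring
    rw [this]; positivity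

lemma coord (l x y : ℝ) (hl : 0 < l) (hx : 0 ≤ x) (hy : 0 ≤ y) :
    2 * |Th x - Th y| ≤ l * ((x + y) / 2) + (x - y) * (FF x - FF y) / l := by
  have hQ := Qnn x y hx hy
  have hk := key x y hx hy
  set Q := (x - y) * (FF x - FF y) with hQd
  set P := (x + y) / 2 with hP
  have hPn : 0 ≤ P := by rw [hP]; positivity
  have h1 : 0 ≤ l * P + Q / l := by positivity
  have h2 : (2 * |Th x - Th y|) ^ 2 ≤ (l * P + Q / l) ^ 2 := by
    have e1 : (2 * |Th x - Th y|) ^ 2 = 4 * (Th x - Th y) ^ 2 := by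
      rw [mul_pow, sq_abs]; norm_num
    have e2 : (l * P + Q / l) ^ 2 = (l * P - Q / l) ^ 2 + 4 * (P * Q) := by
      have : l * P * (Q / l) = P * Q := by field_simp
      nlinarith [this]
    rw [e1, e2]
    nlinarith [sq_nonneg (l * P - Q / l)]
  exact (pow_le_pow_iff_left₀ (by positivity) h1 two_ne_zero).1 h2

end ED

open ED in
theorem ed : LG_ED := by
  intro d a b ha hb
  unfold TE EE
  by_cases hab : a = b
  · subst hab; simp
  have hl : 0 < ‖a - b‖ := norm_pos_iff.2 (sub_ne_zero.2 hab)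
  have hs : ∑ k, 2 * |Th (a k) - Th (b k)| ≤
      ∑ k, (‖a - b‖ * ((a k + b k) / 2) + (a k - b k) * (FF (a k) - FF (b k)) / ‖a - b‖) :=
    Finset.sum_le_sum fun k _ => coord _ _ _ hl (ha.1 k) (hb.1 k)
  rw [← Finset.mul_sum] at hs
  refine hs.trans (le_of_eq ?_)
  rw [Finset.sum_add_distrib, ← Finset.mul_sum, ← Finset.sum_div, ← Finset.sum_div,
    Finset.sum_add_distrib, ha.2, hb.2]
  have hi : inner ℝ (a - b) (XX a - XX b) = ∑ k, (a k - b k) * (FF (a k) - FF (b k)) := by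
    rw [PiLp.inner_apply]
    refine Finset.sum_congr rfl fun k _ => ?_
    simp [XX, mul_comm]
  rw [hi]
  norm_num

end LG
end H11ST
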